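import Pool.Agent.H34.RC.Df

/-!
# [H34 AS DF] THEOREM A with classes at all scales: definition

`ThmS`: the windows have ANY length `H` with `H0 ≤ H ≤ lam0 * log x`; the number of good windows `N ∈ [θ x, T x]` is at
least `δ (H / log x)^D x`, `D` depends only on the number of intervals.
-/

set_option autoImplicit false

namespace Pool.Agent.H34.AS

open Finset Filter Pool.Agent.H34.RC

open Classical in
/-- THEOREM A with classes at all scales: many good windows of every length `H0 ≤ H ≤ lam0 * log x` -/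
def ThmS : Prop := ∀ m : ℕ, ∃ D : ℕ, ∀ w : Fin m → ℝ, (∀ d, 0 ≤ w d) → 100 ≤ ∑ d, w d →
  ∀ Q : ℕ, 0 < Q →
  ∃ lam0 : ℝ, 0 < lam0 ∧ lam0 ≤ 1 ∧ ∀ r : Fin m → ℕ, (∀ d, Nat.Coprime (r d) Q) →
    ∀ al be : Fin m → ℝ, (∀ d, 0 < al d ∧ al d < be d ∧ be d < 1) →
    (∀ d d', d ≠ d' → be d < al d' ∨ be d' < al d) →
      ∃ δ θ T H0 : ℝ, 0 < δ ∧ 0 < θ ∧ 1 ≤ T ∧ ∀ᶠ x : ℝ in atTop, ∀ H : ℝ, H0 ≤ H → H ≤ lam0 * Real.log x →
        δ * (H / Real.log x) ^ D * x ≤ (((range (⌊T * x⌋₊ + 1)).filter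
          (fun N : ℕ => θ * x ≤ (N : ℝ) ∧ GoodC Q r al be w H N)).card : ℝ)

end Pool.Agent.H34.AS
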